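import Pool.Agent.Q16.OG.FRO

set_option autoImplicit false

namespace Pool.Agent.Q16.OG

open MvPolynomial Q151.OG Module

/-- renaming of the variables by a bijection -/
theorem hser_equiv {σ σ' ι : Type} (e : σ ≃ σ') (w : σ → (ι →₀ ℕ)) (w' : σ' → (ι →₀ ℕ))
    (hw : ∀ s, w' (e s) = w s) (V : Set (σ → ℂ)) (V' : Set (σ' → ℂ))
    (hV : ∀ x : σ' → ℂ, x ∈ V' ↔ (fun s => x (e s)) ∈ V) : hser w V = hser w' V' := by
  funext μ
  show ((hilb w V μ : ℕ) : ℤ) = ((hilb w' V' μ : ℕ) : ℤ)
  congr 1
  refine hilb_congr w w' V V' μ μ (rename e).toLinearMap ?_ ?_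
  · ext g
    constructor
    · rintro ⟨f, hf, rfl⟩
      have hf' : IsWeightedHomogeneous w f μ := hf
      refine map_wh w w' (AddMonoidHom.id _) (rename e) ?_ f μ hf'
      intro s
      rw [rename_X]
      have h := isWeightedHomogeneous_X ℂ w' (e s)
      rwa [hw s] at h
    · intro hg
      have hg' : IsWeightedHomogeneous w' g μ := hg
      refine ⟨rename e.symm g, ?_, ?_⟩
      · refine map_wh w' w (AddMonoidHom.id _) (rename e.symm) ?_ g μ hg'
        intro s
        rw [rename_X]
        have h := isWeightedHomogeneous_X ℂ w (e.symm s)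
        rw [← hw, e.apply_symm_apply] at h
        exact h
      · show rename e (rename e.symm g) = g
        rw [rename_rename]
        have : (e ∘ e.symm : σ' → σ') = id := by
          funext s; simp
        rw [this, rename_id_apply]
  · intro f _
    rw [mem_vanishingIdeal_iff, mem_vanishingIdeal_iff]
    constructor
    · intro h x hx
      show aeval x (rename e f) = 0
      rw [aeval_rename]
      exact h _ ((hV x).1 hx)
    · intro h x hx
      have h2 := h (fun s => x (e.symm s)) ((hV _).2 (by simpa using hx))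
      have h3 : aeval (fun s => x (e.symm s)) (rename e f) = 0 := h2
      rw [aeval_rename] at h3
      have h4 : ((fun s => x (e.symm s)) ∘ e) = x := by
        funext s; simp
      rwa [h4] at h3

/-- the statement for the variables `τ` -/
def FreAt (τ : Type) [Fintype τ] : Prop := ∀ (σ ι : Type) [Finite σ] (w : σ → (ι →₀ ℕ))
  (u : τ → (ι →₀ ℕ)), (∀ s, w s ≠ 0) → (∀ t, u t ≠ 0) → ∀ V : Set (σ → ℂ),
  hser (Sum.elim u w) {y : τ ⊕ σ → ℂ | (fun s => y (Sum.inr s)) ∈ V} *
    ∏ t : τ, (1 - MvPowerSeries.monomial (u t) 1) = hser w V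

theorem freAt (h : S_FRO) (τ : Type) [Fintype τ] : FreAt τ := by
  refine Fintype.induction_empty_option (P := fun τ _ => FreAt τ) ?_ ?_ ?_ τ
  · intro α β _ e hα σ ι _ w u hw hu V
    let _ := Fintype.ofEquiv β e.symm
    have h1 := hα σ ι w (fun a => u (e a)) hw (fun a => hu _) V
    rw [← h1]
    congr 1
    · symm
      refine hser_equiv (Equiv.sumCongr e (Equiv.refl σ)) _ _ ?_ _ _ ?_
      · rintro (a | s) <;> rfl
      · intro x; rfl
    · symm
      exact Fintype.prod_equiv e _ _ fun _ => rfl
  · intro σ ι _ w u hw hu V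
    rw [Finset.univ_eq_empty, Finset.prod_empty, mul_one]
    refine hser_equiv (Equiv.emptySum PEmpty σ) _ _ ?_ _ _ ?_
    · rintro (a | s)
      · exact a.elim
      · rfl
    · intro x; rfl
  · intro α _ hα σ ι _ w u hw hu V
    rw [Fintype.prod_option, ← mul_assoc]
    have h1 := hα σ ι w (fun a => u (some a)) hw (fun a => hu _) V
    rw [← h1]
    congr 1
    let e : Option (α ⊕ σ) ≃ Option α ⊕ σ :=
      { toFun := fun o => o.elim (Sum.inl none)
          (Sum.elim (fun a => Sum.inl (some a)) (fun s => Sum.inr s))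
        invFun := Sum.elim (fun o => o.elim none (fun a => some (Sum.inl a)))
          (fun s => some (Sum.inr s))
        left_inv := by rintro (_ | (a | s)) <;> rfl
        right_inv := by rintro ((_ | a) | s) <;> rfl }
    have h2 := h (α ⊕ σ) ι (fun o => Sum.elim u w (e o)) (by
      rintro (_ | (a | s))
      · exact hu none
      · exact hu (some a)
      · exact hw s) {y : α ⊕ σ → ℂ | (fun s => y (Sum.inr s)) ∈ V}
    have h3 : hser (Sum.elim u w) {y : Option α ⊕ σ → ℂ | (fun s => y (Sum.inr s)) ∈ V} =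
        hser (fun o => Sum.elim u w (e o)) {y : Option (α ⊕ σ) → ℂ |
          (fun s => y (some s)) ∈ {y : α ⊕ σ → ℂ | (fun s => y (Sum.inr s)) ∈ V}} := by
      symm
      refine hser_equiv e _ _ (fun _ => rfl) _ _ ?_
      intro x; rfl
    rw [h3]
    refine h2.trans ?_
    congr 1
    funext o
    rcases o with a | s <;> rfl

theorem fre (h : S_FRO) : S_FRE := by
  intro σ ι τ _ _ w u hw hu V
  exact freAt h τ σ ι w u hw hu V

/-- the Hilbert function for large first degree, from KER and IMG -/
theorem hon (h1 : S_KER) (h2 : S_IMG) : S_HON := by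
  intro N z k κ hk
  have hi := h2 N k κ hk.le
  split_ifs with hev
  · rw [if_pos hev] at hi
    exact hilb_congr wt wE _ _ _ _ (th N).toLinearMap hi (h1 N z k κ hk)
  · rw [if_neg hev] at hi
    unfold hilb
    have h0 : (weightedHomogeneousSubmodule ℂ (wt (N := N + 1)) (Finsupp.cons k κ)).map
        (Ideal.Quotient.mkₐ ℂ (vanishingIdeal ℂ (MX (ext z)))).toLinearMap = ⊥ := by
      rw [Submodule.eq_bot_iff]
      rintro _ ⟨f, hf, rfl⟩
      have h3 : th N f = 0 := by
        have : (th N).toLinearMap f ∈ (⊥ : Submodule ℂ _) := by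
          rw [← hi]; exact ⟨f, hf, rfl⟩
        exact (Submodule.mem_bot ℂ).1 this
      have h4 := (h1 N z k κ hk f hf).2 (by rw [h3]; exact Ideal.zero_mem _)
      exact Ideal.Quotient.eq_zero_iff_mem.2 h4
    rw [h0, finrank_bot]

end Pool.Agent.Q16.OG
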