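import Pool.Agent.Q16.OG.IMG

set_option autoImplicit false

namespace Pool.Agent.Q16.OG

open MvPolynomial Q151.OG Module

theorem finrank_range_eq {E F G : Type} [AddCommGroup E] [Module ℂ E] [AddCommGroup F]
    [Module ℂ F] [AddCommGroup G] [Module ℂ G] (a : E →ₗ[ℂ] F) (b : E →ₗ[ℂ] G)
    (h : LinearMap.ker a = LinearMap.ker b) :
    finrank ℂ (LinearMap.range a) = finrank ℂ (LinearMap.range b) :=
  (a.quotKerEquivRange.symm.trans
    ((Submodule.quotEquivOfEq _ _ h).trans b.quotKerEquivRange)).finrank_eq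

/-- comparison of two Hilbert functions -/
theorem hilb_congr {σ σ' ι ι' : Type} (w : σ → (ι →₀ ℕ)) (w' : σ' → (ι' →₀ ℕ))
    (V : Set (σ → ℂ)) (V' : Set (σ' → ℂ)) (μ : ι →₀ ℕ) (μ' : ι' →₀ ℕ)
    (φ : MvPolynomial σ ℂ →ₗ[ℂ] MvPolynomial σ' ℂ)
    (h1 : (weightedHomogeneousSubmodule ℂ w μ).map φ = weightedHomogeneousSubmodule ℂ w' μ')
    (h2 : ∀ f ∈ weightedHomogeneousSubmodule ℂ w μ,
      f ∈ vanishingIdeal ℂ V ↔ φ f ∈ vanishingIdeal ℂ V') :
    hilb w V μ = hilb w' V' μ' := by
  unfold hilb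
  have e1 : (weightedHomogeneousSubmodule ℂ w μ).map
      (Ideal.Quotient.mkₐ ℂ (vanishingIdeal ℂ V)).toLinearMap = LinearMap.range
        ((Ideal.Quotient.mkₐ ℂ (vanishingIdeal ℂ V)).toLinearMap.domRestrict
          (weightedHomogeneousSubmodule ℂ w μ)) := by
    rw [LinearMap.range_domRestrict]
  have e2 : (weightedHomogeneousSubmodule ℂ w' μ').map
      (Ideal.Quotient.mkₐ ℂ (vanishingIdeal ℂ V')).toLinearMap = LinearMap.range
        (((Ideal.Quotient.mkₐ ℂ (vanishingIdeal ℂ V')).toLinearMap.comp φ).domRestrict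
          (weightedHomogeneousSubmodule ℂ w μ)) := by
    rw [LinearMap.range_domRestrict, Submodule.map_comp, h1]
  rw [e1, e2]
  refine finrank_range_eq _ _ ?_
  ext f
  rw [LinearMap.mem_ker, LinearMap.mem_ker, LinearMap.domRestrict_apply,
    LinearMap.domRestrict_apply]
  show Ideal.Quotient.mk (vanishingIdeal ℂ V) f.1 = 0 ↔
    Ideal.Quotient.mk (vanishingIdeal ℂ V') (φ f.1) = 0
  rw [Ideal.Quotient.eq_zero_iff_mem, Ideal.Quotient.eq_zero_iff_mem]
  exact h2 f.1 f.2

theorem finite_weight {σ ι : Type} [Finite σ] (w : σ → (ι →₀ ℕ)) (hw : ∀ s, w s ≠ 0)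
    (μ : ι →₀ ℕ) : {d : σ →₀ ℕ | Finsupp.weight w d = μ}.Finite := by
  have h := Finsupp.finite_of_nat_weight_le (fun s => (w s).degree)
    (fun s h => hw s ((Finsupp.degree_eq_zero_iff _).1 h)) μ.degree
  refine h.subset fun d hd => ?_
  have hd' : Finsupp.weight w d = μ := hd
  show Finsupp.weight (fun s => (w s).degree) d ≤ μ.degree
  rw [← hd', Finsupp.weight_apply, Finsupp.weight_apply, Finsupp.sum, Finsupp.sum]
  rw [map_sum]
  refine le_of_eq (Finset.sum_congr rfl fun s _ => ?_)
  rw [map_nsmul]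

theorem finiteDimensional_wh {σ ι : Type} [Finite σ] (w : σ → (ι →₀ ℕ)) (hw : ∀ s, w s ≠ 0)
    (μ : ι →₀ ℕ) : FiniteDimensional ℂ (weightedHomogeneousSubmodule ℂ w μ) := by
  have hfin : ((fun d : σ →₀ ℕ => (monomial d 1 : MvPolynomial σ ℂ)) ''
      {d | Finsupp.weight w d = μ}).Finite := (finite_weight w hw μ).image _
  have h1 : FiniteDimensional ℂ (Submodule.span ℂ
      ((fun d : σ →₀ ℕ => (monomial d 1 : MvPolynomial σ ℂ)) '' {d | Finsupp.weight w d = μ})) :=
    FiniteDimensional.span_of_finite ℂ hfin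
  refine Submodule.finiteDimensional_of_le (S₂ := Submodule.span ℂ
      ((fun d : σ →₀ ℕ => (monomial d 1 : MvPolynomial σ ℂ)) '' {d | Finsupp.weight w d = μ})) ?_
  intro f hf
  have hf' : IsWeightedHomogeneous w f μ := hf
  rw [f.as_sum]
  refine Submodule.sum_mem _ fun d hd => ?_
  have e : monomial d (coeff d f) = coeff d f • (monomial d 1 : MvPolynomial σ ℂ) := by
    rw [smul_monomial, smul_eq_mul, mul_one]
  rw [e]
  exact Submodule.smul_mem _ _ (Submodule.subset_span ⟨d, hf' (mem_support_iff.1 hd), rfl⟩)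

theorem finrank_map_add {E F : Type} [AddCommGroup E] [Module ℂ E] [AddCommGroup F] [Module ℂ F]
    (p : E →ₗ[ℂ] F) (M : Submodule ℂ E) [FiniteDimensional ℂ M] :
    finrank ℂ (M.map p) + finrank ℂ (M ⊓ LinearMap.ker p : Submodule ℂ E) = finrank ℂ M := by
  have h := LinearMap.finrank_range_add_finrank_ker (p.domRestrict M)
  rw [LinearMap.range_domRestrict] at h
  rw [← h]
  congr 1
  have e : LinearMap.ker (p.domRestrict M) = (LinearMap.ker p).comap M.subtype := by
    ext x; rfl
  rw [e, ← Submodule.finrank_map_subtype_eq, Submodule.map_comap_subtype]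

/-- the projection: the first variable is mapped to zero -/
noncomputable def pr (σ : Type) : MvPolynomial (Option σ) ℂ →ₐ[ℂ] MvPolynomial σ ℂ :=
  aeval (fun o => o.elim 0 X)

theorem pr_none (σ : Type) : pr σ (X none) = 0 := by
  unfold pr; rw [aeval_X]; rfl

theorem pr_some {σ : Type} (s : σ) : pr σ (X (some s)) = X s := by
  unfold pr; rw [aeval_X]; rfl

theorem pr_rename {σ : Type} (f : MvPolynomial σ ℂ) : pr σ (rename some f) = f := by
  have h : (pr σ).comp (rename some) = AlgHom.id ℂ _ := by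
    refine algHom_ext fun s => ?_
    rw [AlgHom.comp_apply, rename_X, pr_some]
    rfl
  exact congrArg (fun F => F f) h

theorem exists_split {σ : Type} (f : MvPolynomial (Option σ) ℂ) :
    ∃ g, f = rename some (pr σ f) + X none * g := by
  induction f using MvPolynomial.induction_on with
  | C a =>
    refine ⟨0, ?_⟩
    have : pr σ (C a) = C a := (pr σ).commutes a
    rw [this, rename_C, mul_zero, add_zero]
  | add p q hp hq =>
    obtain ⟨g, hg⟩ := hp
    obtain ⟨g', hg'⟩ := hq
    refine ⟨g + g', ?_⟩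
    rw [map_add, map_add, mul_add]
    nth_rewrite 1 [hg, hg']
    ring
  | mul_X p o hp =>
    obtain ⟨g, hg⟩ := hp
    rcases o with _ | s
    · refine ⟨p, ?_⟩
      rw [map_mul, pr_none, mul_zero, map_zero, zero_add, mul_comm]
    · refine ⟨g * X (some s), ?_⟩
      rw [map_mul, pr_some, map_mul, rename_X]
      nth_rewrite 1 [hg]
      ring

theorem eval_pr {σ : Type} (f : MvPolynomial (Option σ) ℂ) (x : σ → ℂ) :
    aeval x (pr σ f) = aeval (fun o => Option.elim o 0 x) f := by
  have h : (aeval x).comp (pr σ) =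
      (aeval (fun o => Option.elim o 0 x) : MvPolynomial (Option σ) ℂ →ₐ[ℂ] ℂ) := by
    refine algHom_ext fun o => ?_
    rw [AlgHom.comp_apply, aeval_X]
    rcases o with _ | s
    · rw [pr_none, map_zero]; rfl
    · rw [pr_some, aeval_X]; rfl
  exact congrArg (fun F => F f) h

/-- `ℂ × V` -/
def cyl {σ : Type} (V : Set (σ → ℂ)) : Set (Option σ → ℂ) := {y | (fun s => y (some s)) ∈ V}

theorem pr_mem {σ : Type} (V : Set (σ → ℂ)) (f : MvPolynomial (Option σ) ℂ)
    (hf : f ∈ vanishingIdeal ℂ (cyl V)) : pr σ f ∈ vanishingIdeal ℂ V := by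
  rw [mem_vanishingIdeal_iff] at hf ⊢
  intro x hx
  rw [eval_pr]
  exact hf _ hx

theorem rename_mem {σ : Type} (V : Set (σ → ℂ)) (f : MvPolynomial σ ℂ)
    (hf : f ∈ vanishingIdeal ℂ V) : rename some f ∈ vanishingIdeal ℂ (cyl V) := by
  rw [mem_vanishingIdeal_iff] at hf ⊢
  intro y hy
  rw [aeval_rename]
  exact hf _ hy

theorem X_mul_mem {σ : Type} (V : Set (σ → ℂ)) (g : MvPolynomial (Option σ) ℂ) :
    X none * g ∈ vanishingIdeal ℂ (cyl V) ↔ g ∈ vanishingIdeal ℂ (cyl V) := by
  refine ⟨fun h => ?_, fun h => Ideal.mul_mem_left _ _ h⟩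
  rw [mem_vanishingIdeal_iff] at h ⊢
  intro y hy
  -- the polynomial in one variable `t ↦ g (t, y)`
  let ψ : MvPolynomial (Option σ) ℂ →ₐ[ℂ] Polynomial ℂ :=
    aeval (fun o => Option.elim o Polynomial.X (fun s => Polynomial.C (y (some s))))
  have hψ : ∀ (t : ℂ) (p : MvPolynomial (Option σ) ℂ), (ψ p).eval t =
      aeval (fun o => Option.elim o t (fun s => y (some s))) p := by
    intro t p
    have h3 : ((Polynomial.aeval t : Polynomial ℂ →ₐ[ℂ] ℂ)).comp ψ =
        (aeval (fun o => Option.elim o t (fun s => y (some s))) :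
          MvPolynomial (Option σ) ℂ →ₐ[ℂ] ℂ) := by
      refine algHom_ext fun o => ?_
      have h8 : ψ (X o) =
          Option.elim o Polynomial.X (fun s => Polynomial.C (y (some s))) := aeval_X _ _
      rw [AlgHom.comp_apply, h8, aeval_X]
      rcases o with _ | s
      · exact Polynomial.aeval_X t
      · exact Polynomial.aeval_C t _
    have h4 := congrArg (fun F => F p) h3
    exact h4
  have h5 : ψ g = 0 := by
    refine Polynomial.eq_zero_of_infinite_isRoot _ ?_
    refine Set.Infinite.mono (s := {t : ℂ | t ≠ 0}) ?_ ?_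
    · intro t ht
      show (ψ g).eval t = 0
      rw [hψ]
      have h6 := h (fun o => Option.elim o t (fun s => y (some s))) hy
      rw [map_mul, aeval_X] at h6
      exact (mul_eq_zero.1 h6).resolve_left ht
    · exact (Set.finite_singleton (0 : ℂ)).infinite_compl
  have h7 := hψ (y none) g
  rw [h5, Polynomial.eval_zero] at h7
  rw [h7]
  congr 1
  congr 1
  funext o
  rcases o with _ | s <;> rfl

theorem pr_wh {σ ι : Type} (w : Option σ → (ι →₀ ℕ)) (f : MvPolynomial (Option σ) ℂ)
    (μ : ι →₀ ℕ) (hf : IsWeightedHomogeneous w f μ) :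
    IsWeightedHomogeneous (fun s => w (some s)) (pr σ f) μ := by
  refine map_wh w (fun s => w (some s)) (AddMonoidHom.id _) (pr σ) ?_ f μ hf
  rintro (_ | s)
  · rw [pr_none]
    exact isWeightedHomogeneous_zero _ _ _
  · rw [pr_some]
    exact isWeightedHomogeneous_X _ _ _

theorem rename_wh {σ ι : Type} (w : Option σ → (ι →₀ ℕ)) (f : MvPolynomial σ ℂ)
    (μ : ι →₀ ℕ) (hf : IsWeightedHomogeneous (fun s => w (some s)) f μ) :
    IsWeightedHomogeneous w (rename some f) μ := by
  refine map_wh (fun s => w (some s)) w (AddMonoidHom.id _) (rename some) ?_ f μ hf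
  intro s
  rw [rename_X]
  exact isWeightedHomogeneous_X _ _ _

theorem coeff_X_none_mul {σ : Type} (g : MvPolynomial (Option σ) ℂ) (d : Option σ →₀ ℕ) :
    coeff (Finsupp.single none 1 + d) (X none * g) = coeff d g := coeff_X_mul _ _ _

theorem hilb_step {σ ι : Type} [Finite σ] (w : Option σ → (ι →₀ ℕ)) (hw : ∀ s, w s ≠ 0)
    (V : Set (σ → ℂ)) (κ : ι →₀ ℕ) :
    hilb w (cyl V) κ = hilb (fun s => w (some s)) V κ +
      (if w none ≤ κ then hilb w (cyl V) (κ - w none) else 0) := by
  classical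
  set I' := vanishingIdeal ℂ (cyl V) with hI'
  set I := vanishingIdeal ℂ V with hI
  let mk' := (Ideal.Quotient.mkₐ ℂ I').toLinearMap
  let mk := (Ideal.Quotient.mkₐ ℂ I).toLinearMap
  let π : (MvPolynomial (Option σ) ℂ ⧸ I') →ₗ[ℂ] (MvPolynomial σ ℂ ⧸ I) :=
    (Ideal.Quotient.liftₐ I' ((Ideal.Quotient.mkₐ ℂ I).comp (pr σ)) (fun a ha => by
      show Ideal.Quotient.mk I (pr σ a) = 0
      rw [Ideal.Quotient.eq_zero_iff_mem]
      exact pr_mem V a ha)).toLinearMap
  have hπ : ∀ f, π (mk' f) = mk (pr σ f) := fun f => rfl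
  set M := (weightedHomogeneousSubmodule ℂ w κ).map mk' with hM
  have : FiniteDimensional ℂ (weightedHomogeneousSubmodule ℂ w κ) := finiteDimensional_wh w hw κ
  have : FiniteDimensional ℂ M := by
    rw [hM]; infer_instance
  have h1 := finrank_map_add π M
  have h2 : M.map π = (weightedHomogeneousSubmodule ℂ (fun s => w (some s)) κ).map mk := by
    ext x
    constructor
    · rintro ⟨_, ⟨f, hf, rfl⟩, rfl⟩
      exact ⟨pr σ f, pr_wh w f κ hf, (hπ f).symm⟩
    · rintro ⟨f, hf, rfl⟩
      refine ⟨mk' (rename some f), ⟨rename some f, rename_wh w f κ hf, rfl⟩, ?_⟩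
      rw [hπ, pr_rename]
  have h3 : finrank ℂ (M ⊓ LinearMap.ker π : Submodule ℂ _) =
      (if w none ≤ κ then hilb w (cyl V) (κ - w none) else 0) := by
    let mx : (MvPolynomial (Option σ) ℂ ⧸ I') →ₗ[ℂ] (MvPolynomial (Option σ) ℂ ⧸ I') :=
      LinearMap.mulLeft ℂ (Ideal.Quotient.mk I' (X none))
    have hmx : ∀ g, mx (mk' g) = mk' (X none * g) := fun g => rfl
    have hinj : Function.Injective mx := by
      rw [← LinearMap.ker_eq_bot, LinearMap.ker_eq_bot']
      intro q hq
      obtain ⟨g, rfl⟩ := Ideal.Quotient.mk_surjective q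
      have h4 : Ideal.Quotient.mk I' (X none * g) = 0 := hq
      rw [Ideal.Quotient.eq_zero_iff_mem] at h4 ⊢
      exact (X_mul_mem V g).1 h4
    -- every element of the kernel comes from a multiple of the variable
    have hker : ∀ q ∈ (M ⊓ LinearMap.ker π : Submodule ℂ _), ∃ g,
        mk' (X none * g) = q ∧ (∀ d, coeff d g ≠ 0 → w none + Finsupp.weight w d = κ) := by
      rintro q ⟨⟨f, hf, rfl⟩, hq⟩
      have hf' : IsWeightedHomogeneous w f κ := hf
      have h5 : pr σ f ∈ I := by
        have h6 : Ideal.Quotient.mk I (pr σ f) = 0 := hq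
        rwa [Ideal.Quotient.eq_zero_iff_mem] at h6
      obtain ⟨g, hg⟩ := exists_split f
      refine ⟨g, ?_, ?_⟩
      · have h7 : X none * g = f - rename some (pr σ f) := by
          nth_rewrite 1 [hg]
          ring
        rw [h7, map_sub]
        have h8 : mk' (rename some (pr σ f)) = 0 := by
          show Ideal.Quotient.mk I' (rename some (pr σ f)) = 0
          rw [Ideal.Quotient.eq_zero_iff_mem]
          exact rename_mem V _ h5
        rw [h8, sub_zero]
      · intro d hd
        rw [← coeff_X_none_mul] at hd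
        have h7 : X none * g = f - rename some (pr σ f) := by
          nth_rewrite 1 [hg]
          ring
        have h8 : IsWeightedHomogeneous w (X none * g) κ := by
          rw [h7, ← mem_weightedHomogeneousSubmodule]
          exact Submodule.sub_mem _ hf (rename_wh w _ κ (pr_wh w f κ hf'))
        have h9 := h8 hd
        rw [map_add] at h9
        rw [← h9]
        congr 1
        rw [Finsupp.weight_apply, Finsupp.sum_single_index (by simp), one_smul]
    split_ifs with hle
    · have h10 : (M ⊓ LinearMap.ker π : Submodule ℂ _) =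
          ((weightedHomogeneousSubmodule ℂ w (κ - w none)).map mk').map mx := by
        ext q
        constructor
        · intro hq
          obtain ⟨g, hg1, hg2⟩ := hker q hq
          refine ⟨mk' g, ⟨g, ?_, rfl⟩, ?_⟩
          · show IsWeightedHomogeneous w g (κ - w none)
            intro d hd
            rw [← hg2 d hd, add_tsub_cancel_left]
          · rw [hmx]; exact hg1
        · rintro ⟨_, ⟨g, hg, rfl⟩, rfl⟩
          have hg' : IsWeightedHomogeneous w g (κ - w none) := hg
          refine ⟨⟨X none * g, ?_, rfl⟩, ?_⟩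
          · show IsWeightedHomogeneous w (X none * g) κ
            have h11 := (isWeightedHomogeneous_X ℂ w none).mul hg'
            rwa [add_tsub_cancel_of_le hle] at h11
          · show π (mx (mk' g)) = 0
            rw [hmx, hπ, map_mul, pr_none, zero_mul, map_zero]
      rw [h10]
      exact ((Submodule.equivMapOfInjective mx hinj _).finrank_eq).symm
    · have h10 : (M ⊓ LinearMap.ker π : Submodule ℂ _) = ⊥ := by
        rw [Submodule.eq_bot_iff]
        intro q hq
        obtain ⟨g, hg1, hg2⟩ := hker q hq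
        have hg0 : g = 0 := by
          by_contra hne
          obtain ⟨d, hd⟩ := ne_zero_iff.1 hne
          exact hle (by rw [← hg2 d hd]; exact le_self_add)
        rw [← hg1, hg0, mul_zero, map_zero]
      rw [h10, finrank_bot]
  rw [h2, h3] at h1
  exact h1.symm

theorem fro : S_FRO := by
  intro σ ι _ w hw V
  classical
  ext κ
  rw [mul_sub, mul_one, map_sub, MvPowerSeries.coeff_mul_monomial]
  have h := hilb_step w hw V κ
  show ((hilb w (cyl V) κ : ℕ) : ℤ) - (if w none ≤ κ then
    ((hilb w (cyl V) (κ - w none) : ℕ) : ℤ) * 1 else 0) =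
      ((hilb (fun s => w (some s)) V κ : ℕ) : ℤ)
  rw [h]
  split_ifs <;> push_cast <;> ring

end Pool.Agent.Q16.OG
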