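import Pool.Agent.Q16.OG.KER

set_option autoImplicit false

namespace Pool.Agent.Q16.OG

open MvPolynomial Q151.OG

theorem map_wh {σ τ M M' : Type} [AddCommMonoid M] [AddCommMonoid M'] (w : σ → M) (w' : τ → M')
    (L : M →+ M') (φ : MvPolynomial σ ℂ →ₐ[ℂ] MvPolynomial τ ℂ)
    (h : ∀ s, IsWeightedHomogeneous w' (φ (X s)) (L (w s))) (f : MvPolynomial σ ℂ) (μ : M)
    (hf : IsWeightedHomogeneous w f μ) : IsWeightedHomogeneous w' (φ f) (L μ) := by
  rw [← mem_weightedHomogeneousSubmodule]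
  rw [f.as_sum, map_sum]
  refine Submodule.sum_mem _ fun d hd => ?_
  rw [mem_weightedHomogeneousSubmodule]
  have hw := hf (mem_support_iff.1 hd)
  rw [monomial_eq, map_mul, Finsupp.prod, map_prod]
  have h1 : IsWeightedHomogeneous w' (φ (C (coeff d f))) 0 := by
    have : φ (C (coeff d f)) = C (coeff d f) := φ.commutes _
    rw [this]
    exact isWeightedHomogeneous_C _ _
  have h2 : IsWeightedHomogeneous w' (∏ s ∈ d.support, φ (X s ^ d s))
      (∑ s ∈ d.support, d s • L (w s)) := by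
    refine IsWeightedHomogeneous.prod _ _ _ fun s _ => ?_
    rw [map_pow]
    exact (h s).pow _
  have h3 := h1.mul h2
  rw [zero_add] at h3
  have h4 : ∑ s ∈ d.support, d s • L (w s) = L μ := by
    rw [← hw, Finsupp.weight_apply, Finsupp.sum, map_sum]
    refine Finset.sum_congr rfl fun s _ => ?_
    rw [map_nsmul]
  rwa [h4] at h3

/-- the tail as an additive map -/
noncomputable def tailHom (N : ℕ) : (Fin (N + 1) →₀ ℕ) →+ (Fin N →₀ ℕ) where
  toFun := Finsupp.tail
  map_zero' := by ext i; simp [Finsupp.tail_apply]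
  map_add' a b := by ext i; simp [Finsupp.tail_apply]

/-- the additive map `κ ↦ (∑ κ, κ)` -/
noncomputable def consHom (N : ℕ) : (Fin N →₀ ℕ) →+ (Fin (N + 1) →₀ ℕ) where
  toFun κ := Finsupp.cons (∑ i, κ i) κ
  map_zero' := by
    ext i
    induction i using Fin.cases with
    | zero => simp
    | succ i => simp
  map_add' a b := by
    ext i
    induction i using Fin.cases with
    | zero => simp [Finset.sum_add_distrib]
    | succ i => simp

/-- the section of `th` -/
noncomputable def sect (N : ℕ) :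
    MvPolynomial (Fin N ⊕ Sym2 (Fin N)) ℂ →ₐ[ℂ] MvPolynomial (Sym2 (Fin (N + 1))) ℂ :=
  aeval (Sum.elim (fun j => X s(0, j.succ)) (Sym2.lift ⟨fun i j =>
    X s(0, 0) * X s(i.succ, j.succ) - X s(0, i.succ) * X s(0, j.succ), by
      intro i j
      show X s(0, 0) * X s(i.succ, j.succ) - X s(0, i.succ) * X s(0, j.succ) =
        X s(0, 0) * X s(j.succ, i.succ) - X s(0, j.succ) * X s(0, i.succ)
      rw [Sym2.eq_swap (a := i.succ) (b := j.succ), mul_comm (X s(0, i.succ))]⟩))

theorem sect_inl (N : ℕ) (j : Fin N) : sect N (X (Sum.inl j)) = X s(0, j.succ) := by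
  unfold sect; rw [aeval_X]; rfl

theorem sect_inr (N : ℕ) (i j : Fin N) : sect N (X (Sum.inr s(i, j))) =
    X s(0, 0) * X s(i.succ, j.succ) - X s(0, i.succ) * X s(0, j.succ) := by
  unfold sect; rw [aeval_X]; rfl

theorem th_sect (N : ℕ) (g : MvPolynomial (Fin N ⊕ Sym2 (Fin N)) ℂ) : th N (sect N g) = g := by
  have h : (th N).comp (sect N) = AlgHom.id ℂ _ := by
    refine algHom_ext fun s => ?_
    rw [AlgHom.comp_apply, AlgHom.id_apply]
    rcases s with j | s
    · rw [sect_inl, th_0s]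
    · induction s using Sym2.ind with
      | _ i j =>
        rw [sect_inr, map_sub, map_mul, map_mul, th_00, th_ss, th_0s, th_0s]
        ring
  have h2 := congrArg (fun F => F g) h
  exact h2

theorem consHom_apply {N : ℕ} (κ : Fin N →₀ ℕ) :
    consHom N κ = Finsupp.cons (∑ i, κ i) κ := rfl

theorem wE_inl {N : ℕ} (j : Fin N) :
    wE (Sum.inl j : Fin N ⊕ Sym2 (Fin N)) = Finsupp.single j 1 := rfl

theorem wE_inr {N : ℕ} (i j : Fin N) :
    wE (Sum.inr s(i, j) : Fin N ⊕ Sym2 (Fin N)) = Finsupp.single i 1 + Finsupp.single j 1 := rfl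

theorem cons_wE_inl {N : ℕ} (j : Fin N) :
    consHom N (wE (Sum.inl j : Fin N ⊕ Sym2 (Fin N))) = wt s(0, j.succ) := by
  rw [consHom_apply, wE_inl]
  ext l
  rw [wt_mk, Finsupp.add_apply]
  induction l using Fin.cases with
  | zero =>
    rw [Finsupp.cons_zero, Finsupp.single_eq_same,
      Finsupp.single_eq_of_ne (Fin.succ_ne_zero j).symm]
    simp [Finsupp.single_apply]
  | succ l =>
    rw [Finsupp.cons_succ, Finsupp.single_eq_of_ne (Fin.succ_ne_zero l)]
    simp [Finsupp.single_apply]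

theorem sum_two {N : ℕ} (i j : Fin N) :
    ∑ m, (Finsupp.single i 1 + Finsupp.single j 1 : Fin N →₀ ℕ) m = 2 := by
  simp [Finsupp.single_apply, Finset.sum_add_distrib]

theorem cons_wE_inr {N : ℕ} (i j : Fin N) :
    consHom N (wE (Sum.inr s(i, j) : Fin N ⊕ Sym2 (Fin N))) =
      wt s(0, 0) + wt s(i.succ, j.succ) := by
  rw [consHom_apply, wE_inr, sum_two]
  ext l
  rw [wt_mk, wt_mk, Finsupp.add_apply, Finsupp.add_apply, Finsupp.add_apply]
  induction l using Fin.cases with
  | zero =>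
    rw [Finsupp.cons_zero, Finsupp.single_eq_same,
      Finsupp.single_eq_of_ne (Fin.succ_ne_zero j).symm,
      Finsupp.single_eq_of_ne (Fin.succ_ne_zero i).symm]
    rfl
  | succ l =>
    rw [Finsupp.cons_succ, Finsupp.single_eq_of_ne (Fin.succ_ne_zero l), Finsupp.add_apply]
    simp [Finsupp.single_apply]

theorem sect_wh (N : ℕ) (t : Fin N ⊕ Sym2 (Fin N)) :
    IsWeightedHomogeneous wt (sect N (X t)) (consHom N (wE t)) := by
  rcases t with j | s
  · rw [sect_inl, cons_wE_inl]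
    exact isWeightedHomogeneous_X _ _ _
  · induction s using Sym2.ind with
    | _ i j =>
      have e2 : wt s((0 : Fin (N + 1)), (0 : Fin (N + 1))) + wt s(i.succ, j.succ) =
          wt s((0 : Fin (N + 1)), i.succ) + wt s((0 : Fin (N + 1)), j.succ) := by
        rw [wt_mk, wt_mk, wt_mk, wt_mk]
        abel
      have h1 : IsWeightedHomogeneous wt (X s((0 : Fin (N + 1)), (0 : Fin (N + 1))) *
          X s(i.succ, j.succ) : MvPolynomial (Sym2 (Fin (N + 1))) ℂ)
          (wt s((0 : Fin (N + 1)), (0 : Fin (N + 1))) + wt s(i.succ, j.succ)) :=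
        (isWeightedHomogeneous_X _ _ _).mul (isWeightedHomogeneous_X _ _ _)
      have h2 : IsWeightedHomogeneous wt (X s((0 : Fin (N + 1)), i.succ) *
          X s(0, j.succ) : MvPolynomial (Sym2 (Fin (N + 1))) ℂ)
          (wt s((0 : Fin (N + 1)), i.succ) + wt s((0 : Fin (N + 1)), j.succ)) :=
        (isWeightedHomogeneous_X _ _ _).mul (isWeightedHomogeneous_X _ _ _)
      rw [← e2] at h2
      rw [sect_inr, cons_wE_inr]
      rw [← mem_weightedHomogeneousSubmodule] at h1 h2 ⊢
      exact Submodule.sub_mem _ h1 h2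

theorem tail_wt_00 (N : ℕ) : tailHom N (wt s(0, 0)) = 0 := by
  ext i
  show Finsupp.tail (wt s(0, 0)) i = 0
  rw [Finsupp.tail_apply, wt_mk, Finsupp.add_apply,
    Finsupp.single_eq_of_ne (Fin.succ_ne_zero i)]
  rfl

theorem tail_wt_0s {N : ℕ} (j : Fin N) :
    tailHom N (wt s(0, j.succ)) = wE (Sum.inl j : Fin N ⊕ Sym2 (Fin N)) := by
  ext i
  show Finsupp.tail (wt s(0, j.succ)) i = (Finsupp.single j 1 : Fin N →₀ ℕ) i
  rw [Finsupp.tail_apply, wt_mk, Finsupp.add_apply,
    Finsupp.single_eq_of_ne (Fin.succ_ne_zero i), zero_add]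
  simp [Finsupp.single_apply]

theorem tail_wt_ss {N : ℕ} (i j : Fin N) :
    tailHom N (wt s(i.succ, j.succ)) = wE (Sum.inr s(i, j) : Fin N ⊕ Sym2 (Fin N)) := by
  ext l
  show Finsupp.tail (wt s(i.succ, j.succ)) l =
    ((Finsupp.single i 1 + Finsupp.single j 1 : Fin N →₀ ℕ)) l
  rw [Finsupp.tail_apply, wt_mk, Finsupp.add_apply, Finsupp.add_apply]
  simp [Finsupp.single_apply]

theorem th_wh (N : ℕ) : ∀ s : Sym2 (Fin (N + 1)),
    IsWeightedHomogeneous wE (th N (X s)) (tailHom N (wt s)) := by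
  refine sym2_cases ?_ ?_ ?_
  · rw [th_00, tail_wt_00]
    exact isWeightedHomogeneous_one _ _
  · intro j
    rw [th_0s, tail_wt_0s]
    exact isWeightedHomogeneous_X _ _ _
  · intro i j
    have h1 : IsWeightedHomogeneous wE (X (Sum.inl i) * X (Sum.inl j) :
        MvPolynomial (Fin N ⊕ Sym2 (Fin N)) ℂ) (wE (Sum.inl i : Fin N ⊕ Sym2 (Fin N)) +
          wE (Sum.inl j : Fin N ⊕ Sym2 (Fin N))) :=
      (isWeightedHomogeneous_X _ _ _).mul (isWeightedHomogeneous_X _ _ _)
    have e2 : (wE (Sum.inr s(i, j) : Fin N ⊕ Sym2 (Fin N)) : Fin N →₀ ℕ) =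
        wE (Sum.inl i : Fin N ⊕ Sym2 (Fin N)) + wE (Sum.inl j : Fin N ⊕ Sym2 (Fin N)) := rfl
    rw [← e2] at h1
    rw [th_ss, tail_wt_ss]
    exact (isWeightedHomogeneous_X _ _ _).add h1

theorem even_weight {N : ℕ} (d : Sym2 (Fin N) →₀ ℕ) :
    Even (∑ i, Finsupp.weight wt d i) := by
  simp_rw [weight_apply']
  rw [Finset.sum_comm]
  refine Finset.even_sum _ fun s _ => ?_
  rw [← Finset.mul_sum]
  refine Even.mul_left ?_ _
  induction s using Sym2.ind with
  | _ i j =>
    rw [wt_mk]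
    simp [Finsupp.single_apply, Finset.sum_add_distrib]

theorem pow_weight {N : ℕ} (k r : ℕ) (κ : Fin N →₀ ℕ) (h : 2 * r + ∑ i, κ i = k) :
    r • wt s((0 : Fin (N + 1)), (0 : Fin (N + 1))) + consHom N κ = Finsupp.cons k κ := by
  ext l
  rw [Finsupp.add_apply, Finsupp.smul_apply]
  show r • (wt s(0, 0) : Fin (N + 1) →₀ ℕ) l +
    (Finsupp.cons (∑ i, κ i) κ : Fin (N + 1) →₀ ℕ) l = _
  rw [wt_mk, Finsupp.add_apply]
  induction l using Fin.cases with
  | zero =>
    rw [Finsupp.single_eq_same, Finsupp.cons_zero, Finsupp.cons_zero, smul_eq_mul]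
    omega
  | succ l =>
    rw [Finsupp.single_eq_of_ne (Fin.succ_ne_zero l), Finsupp.cons_succ,
      Finsupp.cons_succ]
    simp

theorem img : S_IMG := by
  intro N k κ hk
  split_ifs with hev
  · apply le_antisymm
    · rintro _ ⟨f, hf, rfl⟩
      have hf' : IsWeightedHomogeneous wt f (Finsupp.cons k κ) :=
        (mem_weightedHomogeneousSubmodule ℂ wt _ f).1 hf
      have h := map_wh wt wE (tailHom N) (th N) (th_wh N) f _ hf'
      have h2 : tailHom N (Finsupp.cons k κ) = κ := Finsupp.tail_cons k κ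
      rw [h2] at h
      exact (mem_weightedHomogeneousSubmodule ℂ wE _ _).2 h
    · intro g hg
      rw [mem_weightedHomogeneousSubmodule] at hg
      have h := map_wh wE wt (consHom N) (sect N) (sect_wh N) g _ hg
      obtain ⟨r, hr⟩ : ∃ r, 2 * r + ∑ i, κ i = k := by
        rcases hev with ⟨a, ha⟩
        exact ⟨a - ∑ i, κ i, by omega⟩
      refine ⟨X s(0, 0) ^ r * sect N g, ?_, ?_⟩
      · have h5 := ((isWeightedHomogeneous_X ℂ (wt (N := N + 1)) s(0, 0)).pow r).mul h
        rw [pow_weight k r κ hr] at h5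
        exact (mem_weightedHomogeneousSubmodule ℂ wt _ _).2 h5
      · show th N (X s(0, 0) ^ r * sect N g) = g
        rw [map_mul, map_pow, th_00, one_pow, one_mul, th_sect]
  · refine (Submodule.eq_bot_iff _).2 ?_
    rintro _ ⟨f, hf, rfl⟩
    have hf' : IsWeightedHomogeneous wt f (Finsupp.cons k κ) :=
      (mem_weightedHomogeneousSubmodule ℂ wt _ f).1 hf
    have hf0 : f = 0 := by
      by_contra hne
      obtain ⟨d, hd⟩ := ne_zero_iff.1 hne
      have hw := hf' hd
      apply hev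
      have h1 : k + ∑ i, κ i = ∑ i, Finsupp.weight wt d i := by
        rw [hw, Fin.sum_univ_succ]
        simp
      rw [h1]
      exact even_weight d
    rw [hf0]
    exact map_zero _

end Pool.Agent.Q16.OG
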