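import Pool.Agent.Q151.OG.Stm

set_option autoImplicit false

namespace Pool.Agent.Q16.OG

open MvPolynomial Q151.OG

theorem blow_00 {N : ℕ} (a : ℂ) (u : Fin N → ℂ) (y : Sym2 (Fin N) → ℂ) :
    blow a u y s(0, 0) = a := rfl

theorem blow_0s {N : ℕ} (a : ℂ) (u : Fin N → ℂ) (y : Sym2 (Fin N) → ℂ) (j : Fin N) :
    blow a u y s(0, j.succ) = u j := rfl

theorem blow_ss {N : ℕ} (a : ℂ) (u : Fin N → ℂ) (y : Sym2 (Fin N) → ℂ) (i j : Fin N) :
    blow a u y s(i.succ, j.succ) = y s(i, j) + u i * u j / a := rfl

/-- case distinction for unordered pairs of indices -/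
theorem sym2_cases {N : ℕ} {P : Sym2 (Fin (N + 1)) → Prop} (h0 : P s(0, 0))
    (h1 : ∀ j : Fin N, P s(0, j.succ)) (h2 : ∀ i j : Fin N, P s(i.succ, j.succ)) :
    ∀ s, P s := by
  intro s
  induction s using Sym2.ind with
  | _ i j =>
    induction i using Fin.cases with
    | zero =>
      induction j using Fin.cases with
      | zero => exact h0
      | succ j => exact h1 j
    | succ i =>
      induction j using Fin.cases with
      | zero => rw [Sym2.eq_swap]; exact h1 i
      | succ j => exact h2 i j

theorem th_00 (N : ℕ) : th N (X s(0, 0)) = 1 := by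
  unfold th; rw [aeval_X]; rfl

theorem th_0s (N : ℕ) (j : Fin N) : th N (X s(0, j.succ)) = X (Sum.inl j) := by
  unfold th; rw [aeval_X]; rfl

theorem th_ss (N : ℕ) (i j : Fin N) : th N (X s(i.succ, j.succ)) =
    X (Sum.inr s(i, j)) + X (Sum.inl i) * X (Sum.inl j) := by
  unfold th; rw [aeval_X]; rfl

theorem wt_mk {N : ℕ} (i j : Fin N) :
    wt s(i, j) = Finsupp.single i 1 + Finsupp.single j 1 := rfl

theorem eval_th (N : ℕ) (y : Fin N ⊕ Sym2 (Fin N) → ℂ)
    (f : MvPolynomial (Sym2 (Fin (N + 1))) ℂ) :
    aeval y (th N f) = aeval (blow 1 (fun j => y (Sum.inl j)) (fun s => y (Sum.inr s))) f := by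
  have h : (aeval y).comp (th N) =
      (aeval (blow 1 (fun j => y (Sum.inl j)) (fun s => y (Sum.inr s))) :
        MvPolynomial (Sym2 (Fin (N + 1))) ℂ →ₐ[ℂ] ℂ) := by
    refine algHom_ext fun s => ?_
    rw [AlgHom.comp_apply, aeval_X]
    revert s
    refine sym2_cases ?_ ?_ ?_
    · rw [th_00, map_one, blow_00]
    · intro j
      rw [th_0s, aeval_X, blow_0s]
    · intro i j
      rw [th_ss, map_add, map_mul, aeval_X, aeval_X, aeval_X, blow_ss, div_one]
  rw [← h, AlgHom.comp_apply]

theorem weight_apply' {σ ι : Type} (w : σ → (ι →₀ ℕ)) (d : σ →₀ ℕ) (i : ι) :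
    Finsupp.weight w d i = ∑ s ∈ d.support, d s * w s i := by
  rw [Finsupp.weight_apply, Finsupp.sum, Finsupp.finset_sum_apply]
  rfl

theorem ker (h1 : S_SCH) (h2 : S_SCI) : S_KER := by
  intro N z k κ hk f hf
  rw [mem_weightedHomogeneousSubmodule] at hf
  rw [mem_vanishingIdeal_iff, mem_vanishingIdeal_iff]
  constructor
  · intro h y hy
    rw [eval_th]
    exact h _ ((h1 N z 1 _ _ one_ne_zero).2 hy)
  · intro h x hx
    by_cases hx0 : x s(0, 0) = 0
    · rw [aeval_def, eval₂_eq]
      refine Finset.sum_eq_zero fun d hd => ?_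
      have hw := hf (mem_support_iff.1 hd)
      have hd0 : d s(0, 0) ≠ 0 := by
        intro hd0
        have e0 : Finsupp.weight wt d 0 = k := by rw [hw, Finsupp.cons_zero]
        have e1 : ∀ i : Fin N, Finsupp.weight wt d i.succ = κ i := by
          intro i; rw [hw, Finsupp.cons_succ]
        have e2 : k ≤ ∑ i, κ i := by
          rw [← e0, ← Finset.sum_congr rfl fun i _ => e1 i, weight_apply']
          simp_rw [weight_apply']
          rw [Finset.sum_comm]
          refine Finset.sum_le_sum fun s hs => ?_
          have hs0 : s ≠ s(0, 0) := by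
            rintro rfl; exact (Finsupp.mem_support_iff.1 hs) hd0
          rw [← Finset.mul_sum]
          refine Nat.mul_le_mul_left _ ?_
          revert hs0
          clear hs
          revert s
          refine sym2_cases ?_ ?_ ?_
          · intro h; exact absurd rfl h
          · intro j _
            rw [wt_mk]
            simp only [Finsupp.add_apply]
            rw [Finsupp.single_eq_same, Finsupp.single_eq_of_ne (Fin.succ_ne_zero j).symm]
            rw [Finset.sum_add_distrib]
            have : ∑ i : Fin N, (Finsupp.single j.succ 1 : Fin (N+1) →₀ ℕ) i.succ ≥ 1 := by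
              refine le_trans ?_ (Finset.single_le_sum (f := fun i : Fin N =>
                (Finsupp.single j.succ 1 : Fin (N+1) →₀ ℕ) i.succ) (fun _ _ => Nat.zero_le _)
                (Finset.mem_univ j))
              simp
            omega
          · intro i j _
            rw [wt_mk]
            simp only [Finsupp.add_apply]
            rw [Finsupp.single_eq_of_ne (Fin.succ_ne_zero j).symm,
              Finsupp.single_eq_of_ne (Fin.succ_ne_zero i).symm]
            exact Nat.zero_le _
        omega
      have hmem : s(0, 0) ∈ d.support := Finsupp.mem_support_iff.2 hd0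
      rw [Finset.prod_eq_zero hmem (by rw [hx0, zero_pow hd0]), mul_zero]
    · have hxb := h2 N x hx0
      have hy : schur x ∈ MX z := by
        refine (h1 N z (x s(0, 0)) (fun j => x s(0, j.succ)) (schur x) hx0).1 ?_
        rw [hxb]; exact hx
      obtain ⟨c, hc⟩ := IsAlgClosed.exists_pow_nat_eq (x s(0, 0))⁻¹ (n := 2) (by norm_num)
      have hc2 : c ^ 2 * x s(0, 0) = 1 := by rw [hc, inv_mul_cancel₀ hx0]
      have hc0 : c ≠ 0 := by
        rintro rfl
        rw [zero_pow two_ne_zero, zero_mul] at hc2
        exact zero_ne_one hc2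
      have e1 : (fun s => c ^ (wt s 0) * x s) = blow 1 (fun j => c * x s(0, j.succ)) (schur x) := by
        funext s
        revert s
        refine sym2_cases ?_ ?_ ?_
        · rw [blow_00, wt_mk, Finsupp.add_apply, Finsupp.single_eq_same]
          exact hc2
        · intro j
          rw [blow_0s, wt_mk, Finsupp.add_apply, Finsupp.single_eq_same,
            Finsupp.single_eq_of_ne (Fin.succ_ne_zero j).symm, add_zero, pow_one]
        · intro i j
          rw [blow_ss, wt_mk, Finsupp.add_apply, Finsupp.single_eq_of_ne (Fin.succ_ne_zero i).symm,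
            Finsupp.single_eq_of_ne (Fin.succ_ne_zero j).symm, add_zero, pow_zero, one_mul,
            div_one]
          have h3 : x s(i.succ, j.succ) =
              schur x s(i, j) + x s(0, i.succ) * x s(0, j.succ) / x s(0, 0) := by
            conv_lhs => rw [← hxb]
            rfl
          rw [h3]
          have h4 : (x s(0, 0))⁻¹ = c * c := by rw [← hc, sq]
          rw [div_eq_mul_inv, h4]
          ring
      have e2 : aeval (fun s => c ^ (wt s 0) * x s) f = c ^ k * aeval x f := by
        rw [aeval_def, aeval_def, eval₂_eq, eval₂_eq, Finset.mul_sum]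
        refine Finset.sum_congr rfl fun d hd => ?_
        have hw := hf (mem_support_iff.1 hd)
        have e0 : Finsupp.weight wt d 0 = k := by rw [hw, Finsupp.cons_zero]
        have e3 : ∏ s ∈ d.support, (c ^ (wt s 0) * x s) ^ d s =
            c ^ k * ∏ s ∈ d.support, x s ^ d s := by
          rw [← e0, weight_apply', ← Finset.prod_pow_eq_pow_sum, ← Finset.prod_mul_distrib]
          refine Finset.prod_congr rfl fun s _ => ?_
          rw [mul_pow, ← pow_mul, mul_comm (wt s 0)]
        rw [e3]; ring
      have e3 := h (Sum.elim (fun j => c * x s(0, j.succ)) (schur x)) hy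
      rw [eval_th] at e3
      have e4 : aeval (blow 1 (fun j => c * x s(0, j.succ)) (schur x)) f = 0 := e3
      rw [← e1, e2] at e4
      exact (mul_eq_zero.1 e4).resolve_left (pow_ne_zero k hc0)

end Pool.Agent.Q16.OG
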